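import Pool.Agent.Lib.MP_3a3d34_lc.OneHard

/-!
Simple foldability of orthogonally convex maps is NP-hard in the one-layer, the some-layers and
the all-layers model, whether or not the moving part is required to lie on one side of the axis.
-/

set_option autoImplicit false

namespace Pool.Agent.Results.MP_3a3d34_lc.ThreeModels

open Pool.Agent.Lib.MP_3a3d34_lc

theorem result : ∀ (mo : Layers) (two : Bool), ∀ L ∈ N68a2faeb.NP,
    N793a5b8e.ManyOneReducible L (LangIn mo two) :=
  fun mo two _ hL => np_hard_in mo two hL

end Pool.Agent.Results.MP_3a3d34_lc.ThreeModels
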